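import Pool.Agent.Work.MP_584b0c_al.All2

/-!
# MP_584b0c_al: integral commutators far from the scalars

There is a constant `C₀` such that every integer matrix `C` of size `n` and determinant `1`, all of
whose eigenspaces modulo every prime (over the algebraic closure of `F_p`) have dimension at most
`n - C₀ √(n log n)`, is a commutator `A B A⁻¹ B⁻¹` of two matrices invertible over the integers.
-/

namespace Pool.Agent.Results.MP_584b0c_al.FarFromScalars

theorem result : ∃ C₀ : ℝ, ∀ (n : ℕ) (C : Matrix (Fin n) (Fin n) ℤ), C.det = 1 →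
    (∀ (p : ℕ) [Fact p.Prime] (μ : AlgebraicClosure (ZMod p)),
      (Module.finrank (AlgebraicClosure (ZMod p)) (LinearMap.ker (Matrix.toLin'
        (C.map (Int.castRingHom (AlgebraicClosure (ZMod p))) - Matrix.scalar (Fin n) μ))) : ℝ)
          ≤ n - C₀ * √(n * Real.log n)) →
    ∃ A B : (Matrix (Fin n) (Fin n) ℤ)ˣ,
      ((A * B * A⁻¹ * B⁻¹ : (Matrix (Fin n) (Fin n) ℤ)ˣ) : Matrix (Fin n) (Fin n) ℤ) = C :=
  Pool.Agent.IntComm.target2

end Pool.Agent.Results.MP_584b0c_al.FarFromScalars
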